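import Mathlib
import Pool.Prelude.Def_H_3587d628

namespace Pool.Agent.Lib.CxPspace

/-- The class PSPACE: languages decided by a multi-stack Turing machine (Mathlib `FinTM2`, the
machine model of the Prelude class `P`) all of whose stacks have length at most `p(|x|)` in every
configuration reachable on input `x`. -/
def PSPACE : Set (List Bool → Bool) :=
  {L | ∃ (M : Turing.TM2Computable (N487b59b3.bitEncode : List Bool → List Bool)
      (N487b59b3.bitEncode : Bool → List Bool) L) (p : Polynomial ℕ),
    ∀ (x : List Bool) (c : M.tm.Cfg),
      StateTransition.Reaches M.tm.step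
        (Turing.initList M.tm ((N487b59b3.bitEncode x).map M.inputAlphabet.invFun)) c →
      ∀ k, (c.stk k).length ≤ p.eval x.length}

end Pool.Agent.Lib.CxPspace
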