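import Pool.Agent.Lib.CxPspace.Savitch
import Pool.Agent.Lib.CxPspace.Defs

/-!
QBF truth is PSPACE-hard.
-/

namespace Pool.Agent.Lib.CxPspace

open Pool.Agent.Lib.Cx Function N487b59b3 Turing Turing.TM2

theorem dec_finEnc (ι : Type) [Finite ι] : @Dec ι (finEnc ι) := by
  let _ : Enc ι := finEnc ι
  refine ⟨⟨fun l => (List.ofFn (Finite.equivFin ι).symm)[ofBits l]?, by fun_prop, fun a => ?_⟩⟩
  have : enc a = enc ((Finite.equivFin ι a : Fin _) : ℕ) := rfl
  simp only [this, ofBits_enc]
  simp

attribute [local instance] piEnc in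
theorem dec_piEnc (ι β : Type) [Fintype ι] [Enc β] [Dec β] [Inhabited β] : Dec (ι → β) := by
  classical
  obtain ⟨d, p, e⟩ := (inferInstance : Dec (List β)).dec
  have h : PT (fun l : List β => fun i : ι =>
      l.getD ((Finset.univ : Finset ι).toList.idxOf i) default) := PT.pi fun i => by fun_prop
  refine ⟨⟨fun x => (d x).map (fun l i => l.getD ((Finset.univ : Finset ι).toList.idxOf i) default),
    PT.optionMap p (h.comp' (by fun_prop)), fun g => ?_⟩⟩
  simp only [enc_pi, e, Option.map_some, Option.some.injEq]
  funext i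
  rw [List.getD_eq_getElem?_getD, List.getElem?_map, List.getElem?_idxOf (by simp)]
  rfl

theorem iterate_two_pow {F : List Bool → List Bool} (hF : ∀ w, (F w).length = w.length)
    (a h : List Bool) (n : ℕ) (h1 : F^[n] a = h) (h2 : F h = h) : F^[2 ^ a.length] a = h := by
  have hit : ∀ n (w : List Bool), (F^[n] w).length = w.length := by
    intro n
    induction n with
    | zero => intro w; rfl
    | succ n ihn => intro w; rw [Function.iterate_succ_apply', hF, ihn]
  have key : ∀ i j, i < j → j ≤ 2 ^ a.length → F^[i] a = F^[j] a → F^[2 ^ a.length] a = h := by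
    intro i j hij hj e
    have per : ∀ t, F^[i + t * (j - i)] a = F^[i] a := by
      intro t
      induction t with
      | zero => simp
      | succ t ih =>
        rw [show i + (t + 1) * (j - i) = (j - i) + (i + t * (j - i)) by ring,
          Function.iterate_add_apply, ih, ← Function.iterate_add_apply,
          Nat.sub_add_cancel hij.le, e]
    have hn : n ≤ i + n * (j - i) := by
      have : 1 ≤ j - i := by omega
      nlinarith
    obtain ⟨d, hd⟩ := Nat.exists_eq_add_of_le' hn
    have e2 : F^[i] a = h := by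
      rw [← per n, hd, Function.iterate_add_apply, h1, Function.iterate_fixed h2]
    obtain ⟨d', hd'⟩ := Nat.exists_eq_add_of_le' (hij.le.trans hj)
    rw [hd', Function.iterate_add_apply, e2, Function.iterate_fixed h2]
  obtain ⟨i, j, hij, e⟩ := Fintype.exists_ne_map_eq_of_card_lt
    (fun (i : Fin (2 ^ a.length + 1)) (k : Fin a.length) => (F^[i] a).getD k false) (by simp)
  have e' : F^[i] a = F^[j] a := by
    apply List.ext_getElem (by rw [hit, hit])
    intro k h3 h4
    have := congrFun e ⟨k, by rwa [hit] at h3⟩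
    simpa [List.getD_eq_getElem?_getD, List.getElem?_eq_getElem h3,
      List.getElem?_eq_getElem h4] using this
  rcases lt_or_gt_of_ne hij with h3 | h3
  · exact key i j h3 (by have := j.2; omega) e'
  · exact key j i h3 (by have := i.2; omega) e'.symm

theorem reaches_of_iter {σ : Type} {f : σ → Option σ} (n : ℕ) (a b : σ)
    (h : (flip bind f)^[n] (some a) = some b) (i : ℕ) (hi : i ≤ n) :
    ∃ c, (flip bind f)^[i] (some a) = some c ∧ StateTransition.Reaches f a c := by
  induction i with
  | zero => exact ⟨a, rfl, Relation.ReflTransGen.refl⟩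
  | succ i ih =>
    obtain ⟨c, h1, h2⟩ := ih (by omega)
    cases hc : f c with
    | none =>
      exfalso
      obtain ⟨d, rfl⟩ := Nat.exists_eq_add_of_le' hi
      rw [Function.iterate_add_apply, Function.iterate_succ_apply', h1] at h
      change (flip bind f)^[d] (f c) = _ at h
      rw [hc, Function.iterate_fixed (by rfl)] at h
      cases h
    | some c' =>
      refine ⟨c', ?_, h2.tail hc⟩
      rw [Function.iterate_succ_apply', h1]
      exact hc

/-- padded code word -/
def word {C : Type} [Enc C] (c : C) (m : ℕ) : List Bool :=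
  List.replicate (m - 1 - size c) false ++ true :: enc c

theorem length_word {C : Type} [Enc C] (c : C) {m : ℕ} (h : size c + 1 ≤ m) :
    (word c m).length = m := by
  simp only [word, List.length_append, List.length_replicate, List.length_cons]
  change _ + (size c + 1) = m
  omega

theorem word_inj {C : Type} [Enc C] {c c' : C} {m : ℕ} (h : word c m = word c' m) : c = c' := by
  have := congrArg unpad h
  simp only [word, unpad_pad] at this
  exact enc_injective this

/-- Iterating a polynomial-time map on structured data of bounded size. -/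
theorem exists_qbf_of_orbit {α C : Type} [Enc α] [Enc C] [hd : Dec C] {f : C → C} (hf : PT f)
    {s t : α → C} (hs : PT s) (ht : PT t) {m : α → ℕ} (hm : PT m) (hm' : PB m)
    (hb : ∀ x i, size (f^[i] (s x)) ≤ m x) (hfix : ∀ x, ∃ n, f (f^[n] (s x)) = f^[n] (s x)) :
    ∃ g : α → List Bool × Cnf, PT g ∧ ∀ x, (QbfTrue (g x).2 (g x).1 [] ↔
      ∃ n, f (f^[n] (s x)) = f^[n] (s x) ∧ f^[n] (s x) = t x) := by
  obtain ⟨d, hdp, hde⟩ := hd.dec
  let F0 : List Bool → List Bool := fun w => (d (unpad w)).elim w (fun c => word (f c) w.length)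
  have hF0 : PT F0 := by
    simp only [F0, unpad, word]
    fun_prop
  let F : List Bool → List Bool := fun w => if (F0 w).length = w.length then F0 w else w
  have hF : PT F := by simp only [F]; fun_prop
  have hlen : ∀ w, (F w).length = w.length := by
    intro w; simp only [F]; split_ifs with h
    · exact h
    · rfl
  obtain ⟨g, hg, hq⟩ := exists_qbf_of_iter hlen hF
  let M : α → ℕ := fun x => m x + size (t x) + 1
  refine ⟨fun x => g (word (s x) (M x), word (t x) (M x)), hg.comp' ?_, fun x => ?_⟩
  · simp only [word, M]; fun_prop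
  have hM : ∀ i, size (f^[i] (s x)) + 1 ≤ M x := fun i => by
    have := hb x i; simp only [M]; omega
  have hstep : ∀ i, F (word (f^[i] (s x)) (M x)) = word (f^[i + 1] (s x)) (M x) := by
    intro i
    have e : F0 (word (f^[i] (s x)) (M x)) = word (f^[i + 1] (s x)) (M x) := by
      simp only [F0]
      rw [length_word _ (hM i)]
      simp only [word, unpad_pad, hde, Option.elim, Function.iterate_succ_apply']
    simp only [F]
    rw [e, if_pos (by rw [length_word _ (hM i), length_word _ (hM _)])]
  have hiter : ∀ i, F^[i] (word (s x) (M x)) = word (f^[i] (s x)) (M x) := by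
    intro i
    induction i with
    | zero => rfl
    | succ i ih => rw [Function.iterate_succ_apply', ih, hstep]
  have l0 : (word (s x) (M x)).length = M x := length_word _ (hM 0)
  have key : ∀ n, f (f^[n] (s x)) = f^[n] (s x) →
      F^[2 ^ (word (s x) (M x)).length] (word (s x) (M x)) = word (f^[n] (s x)) (M x) := by
    intro n hn
    refine iterate_two_pow hlen _ _ n (hiter n) ?_
    rw [hstep, Function.iterate_succ_apply', hn]
  rw [hq _ _ (by rw [l0, length_word _ (by simp only [M]; omega)])]
  constructor
  · intro h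
    obtain ⟨n, hn⟩ := hfix x
    exact ⟨n, hn, word_inj ((key n hn).symm.trans h)⟩
  · rintro ⟨n, h1, h2⟩
    rw [key n h1, h2]

attribute [local instance] piEnc in
/-- QBF truth is PSPACE-hard. -/
theorem qbf_hard {L : List Bool → Bool} (hL : L ∈ PSPACE) :
    ∃ g : List Bool → List Bool × Cnf, PT g ∧ ∀ x, (L x = true ↔ QbfTrue (g x).2 (g x).1 []) := by
  obtain ⟨⟨⟨tm, ia, oa⟩, hp⟩, p, hsp⟩ := hL
  simp only at hp hsp
  have := tm.kFin
  have := tm.ΛFin
  have := tm.σFin
  have := tm.Γk₀Fin
  have : Finite (tm.Γ tm.k₁) := Finite.of_equiv _ oa.symm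
  let T : Set (Σ k, tm.Γ k) := (Set.range (fun x => ⟨tm.k₀, x⟩) ∪ Set.range (fun x => ⟨tm.k₁, x⟩)) ∪
    ⋃ l, pushed (tm.m l)
  obtain ⟨B, hB, cd, dc, hT⟩ := exists_code T
    (((Set.finite_range _).union (Set.finite_range _)).union
      (Set.finite_iUnion fun l => pushed_finite _))
  let _ : Enc B := finEnc B
  let _ : Enc tm.Λ := finEnc _
  let _ : Enc tm.σ := finEnc _
  have : Dec B := dec_finEnc B
  have : Dec tm.Λ := dec_finEnc _
  have : Dec tm.σ := dec_finEnc _
  have : Dec (tm.K → List B) := dec_piEnc _ _
  obtain ⟨cB, hcB⟩ := exists_size_bound B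
  obtain ⟨cL, hcL⟩ := exists_size_bound (Option tm.Λ)
  obtain ⟨cS, hcS⟩ := exists_size_bound tm.σ
  let ini : List Bool → Option tm.Λ × tm.σ × (tm.K → List B) := fun x =>
    (some tm.main, tm.initialState,
      update (fun _ => []) tm.k₀ ((enc x).map fun b => cd ⟨tm.k₀, ia.symm b⟩))
  have hini : PT ini := PT.prodMk (PT.const _) (PT.prodMk (PT.const _)
    (PT.piUpdate (PT.const _) _ (PT.map
      ((PT.of_finite (fun b => cd ⟨tm.k₀, ia.symm b⟩)).comp' (by fun_prop)) PT.id'.enc')))
  have hstep : PT (simStep cd dc tm.m) := by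
    refine (PT.finCases (c := fun c : Option tm.Λ × tm.σ × (tm.K → List B) => c.1)
      (f := fun o c => o.elim c (fun l => simStmt cd dc (tm.m l) c.2)) (by fun_prop) ?_)
    rintro (_ | l)
    · exact PT.id'
    · exact (simStmt_pt cd dc (tm.m l)).comp' (by fun_prop)
  let code : tm.Cfg → Option tm.Λ × tm.σ × (tm.K → List B) := fun c =>
    (c.l, c.var, codeStk cd c.stk)
  let fin : Bool → Option tm.Λ × tm.σ × (tm.K → List B) := fun b =>
    code (haltList tm [oa.invFun b])
  have hv : ∀ x : List Bool, ∀ k, ∀ y ∈ (initList tm (List.map ia.invFun (enc x))).stk k,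
      (⟨k, y⟩ : Σ k, tm.Γ k) ∈ T := by
    intro x k y hy
    by_cases hk : k = tm.k₀
    · subst hk; exact Or.inl (Or.inl ⟨y, rfl⟩)
    · simp [initList, hk] at hy
  have e3 : ∀ x, ini x = code (initList tm (List.map ia.invFun (enc x))) := by
    intro x
    refine Prod.ext rfl (Prod.ext rfl ?_)
    funext k
    by_cases hk : k = tm.k₀
    · subst hk; simp [ini, code, initList, codeStk]
    · simp [ini, code, initList, codeStk, hk]
  have hsim : ∀ x n c, (flip bind tm.step)^[n] (some (initList tm (List.map ia.invFun (enc x)))) =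
      some c → (simStep cd dc tm.m)^[n] (ini x) = code c := by
    intro x n c h
    rw [e3]
    exact (simStep_iter cd dc T hT tm.m
      (fun l => (Set.subset_iUnion (fun l => pushed (tm.m l)) l).trans Set.subset_union_right)
      n _ _ (hv x) h).1
  have hrun : ∀ x, ∃ n, (flip bind tm.step)^[n]
      (some (initList tm (List.map ia.invFun (enc x)))) = some (haltList tm [oa.invFun (L x)]) :=
    fun x => ⟨(hp x).steps, (hp x).evals_in_steps⟩
  have hfix : ∀ b, simStep cd dc tm.m (fin b) = fin b := fun b => rfl
  have hall : ∀ x i, ∃ c, StateTransition.Reaches tm.step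
      (initList tm (List.map ia.invFun (enc x))) c ∧ (simStep cd dc tm.m)^[i] (ini x) = code c := by
    intro x i
    obtain ⟨n, hn⟩ := hrun x
    by_cases hi : i ≤ n
    · obtain ⟨c, h1, h2⟩ := reaches_of_iter n _ _ hn i hi
      exact ⟨c, h2, hsim x i c h1⟩
    · obtain ⟨c, h1, h2⟩ := reaches_of_iter n _ _ hn n le_rfl
      rw [hn] at h1
      obtain rfl := Option.some.inj h1
      obtain ⟨d, rfl⟩ := Nat.exists_eq_add_of_le' (show n ≤ i by omega)
      refine ⟨_, h2, ?_⟩
      rw [Function.iterate_add_apply, hsim x n _ hn]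
      exact Function.iterate_fixed (hfix _) d
  obtain ⟨g, hg, hq⟩ := exists_qbf_of_orbit (α := List Bool) hstep hini (PT.const (fin true))
    (m := fun x => 2 * cL + 1 + (2 * cS + 1 + Fintype.card tm.K *
        (2 * (p.eval x.length * (2 * cB + 1)) + 1))) (by fun_prop) (by fun_prop)
    (fun x i => by
      obtain ⟨c, h1, h2⟩ := hall x i
      rw [h2]
      have h3 := size_pi_le (codeStk cd c.stk) (p.eval x.length * (2 * cB + 1)) fun k => by
        refine (size_list_le _ cB (fun a _ => hcB a)).trans (Nat.mul_le_mul_right _ ?_)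
        simpa [codeStk] using hsp x c h1 k
      have h4 := hcL c.l
      have h5 := hcS c.var
      simp only [code, size_prod]
      omega)
    (fun x => by
      obtain ⟨n, hn⟩ := hrun x
      exact ⟨n, by rw [hsim x n _ hn]; exact hfix _⟩)
  refine ⟨g, hg, fun x => ?_⟩
  rw [hq]
  obtain ⟨n, hn⟩ := hrun x
  have h1 := hsim x n _ hn
  constructor
  · intro h
    rw [h] at h1
    exact ⟨n, by rw [h1]; exact hfix _, h1⟩
  · rintro ⟨n', h2, h3⟩
    have h4 : fin (L x) = fin true := by
      have a1 : (simStep cd dc tm.m)^[n' + n] (ini x) = fin (L x) := by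
        rw [Function.iterate_add_apply, h1]; exact Function.iterate_fixed (hfix _) _
      have a2 : (simStep cd dc tm.m)^[n + n'] (ini x) = fin true := by
        rw [Function.iterate_add_apply, h3]; exact Function.iterate_fixed (hfix _) _
      rw [← a1, ← a2, add_comm]
    have h5 := congrArg (fun c => (c.2.2 tm.k₁).map (dc tm.k₁)) h4
    have e4 : ∀ b, (haltList tm [oa.invFun b]).stk tm.k₁ = [oa.invFun b] := by
      intro b; simp [haltList]
    simp only [fin, code, codeStk, e4, List.map_cons, List.map_nil, List.cons.injEq,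
      and_true] at h5
    rw [hT _ _ (Or.inl (Or.inr ⟨_, rfl⟩)), hT _ _ (Or.inl (Or.inr ⟨_, rfl⟩))] at h5
    exact oa.symm.injective (Option.some.inj h5)

end Pool.Agent.Lib.CxPspace
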