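import Pool.Agent.Lib.Cx.All
import Pool.Agent.Lib.CxPspace.Defs

/-!
Membership in PSPACE: iterated polynomial-time maps on data of polynomial size, and evaluation of
games of polynomial depth.
-/

namespace Pool.Agent.Lib.CxPspace

open Pool.Agent.Lib.Cx Function N487b59b3 Turing Turing.TM2

section machine

variable {K Λ : Type} [DecidableEq K]

/-- A run in which all stacks stay short. -/
inductive BSteps (code : Λ → Instr K (Option Λ)) (M : ℕ) :
    Option Λ × St K → Option Λ × St K → Prop
  | refl (c : Option Λ × St K) : (∀ k, (c.2 k).length ≤ M) → BSteps code M c c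
  | step (l : Λ) (S : St K) (c : Option Λ × St K) : (∀ k, (S k).length ≤ M) →
      BSteps code M ((code l).exec S) c → BSteps code M (some l, S) c

theorem BSteps.trans {code : Λ → Instr K (Option Λ)} {M : ℕ} {a b c : Option Λ × St K}
    (h1 : BSteps code M a b) (h2 : BSteps code M b c) : BSteps code M a c := by
  induction h1 with
  | refl c' _ => exact h2
  | step l S c' h _ ih => exact BSteps.step l S _ h (ih h2)

theorem BSteps.of_steps {code : Λ → Instr K (Option Λ)} {M : ℕ} {a b : Option Λ × St K} {n : ℕ}
    (h : Steps code a n b) (hb : ∀ k, (a.2 k).length + n ≤ M) : BSteps code M a b := by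
  induction h with
  | refl c => exact BSteps.refl c (by simpa using hb)
  | step l S m c h ih =>
    refine BSteps.step l S c (fun k => by have := hb k; simp only at this; omega) (ih fun k => ?_)
    have h1 := (Steps.step l S 0 _ (Steps.refl _) : Steps code (some l, S) 1 _).length_le k
    have := hb k
    simp only at h1 this ⊢
    omega

theorem BSteps.steps {code : Λ → Instr K (Option Λ)} {M : ℕ} {a b : Option Λ × St K}
    (h : BSteps code M a b) : ∃ n, Steps code a n b := by
  induction h with
  | refl c _ => exact ⟨0, Steps.refl c⟩
  | step l S c _ _ ih =>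
    obtain ⟨n, hn⟩ := ih
    exact ⟨n + 1, Steps.step l S n c hn⟩

theorem toTM_space [Fintype K] (B : Block K) (i o : K) {M : ℕ} {a b : Option B.Λ × St K}
    (h : BSteps B.code M a b) (hb : b.1 = none) (v : Option Bool) (c : (toTM B i o).Cfg)
    (hc : StateTransition.Reaches (toTM B i o).step
      (⟨some a.1, v, a.2⟩ : (toTM B i o).Cfg) c) : ∀ k, (c.stk k).length ≤ M := by
  induction h generalizing v with
  | refl d hd =>
    obtain ⟨l, S⟩ := d
    simp only at hb
    subst hb
    rcases Relation.ReflTransGen.cases_head hc with rfl | ⟨c1, h1, h2⟩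
    · exact hd
    · obtain rfl : (⟨none, none, S⟩ : (toTM B i o).Cfg) = c1 := Option.some.inj h1
      rcases Relation.ReflTransGen.cases_head h2 with rfl | ⟨c2, h3, _⟩
      · exact hd
      · cases h3
  | step l S d hS _ ih =>
    rcases Relation.ReflTransGen.cases_head hc with rfl | ⟨c1, h1, h2⟩
    · exact hS
    · obtain ⟨v1, e1⟩ := toStmt_step (B.code l) v S
      have : c1 = ⟨some ((B.code l).exec S).1, v1, ((B.code l).exec S).2⟩ :=
        (Option.some.inj h1).symm.trans e1
      subst this
      exact ih hb v1 h2

theorem loop_iter (A : Block K) (B : Bool → Block K) (k : K) {S S' : St K} {b : Bool}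
    {r : List Bool} {t : ℕ} (h : S k = b :: r) (h1 : (B b).Runs (update S k r) S' t) :
    ∃ n ≤ t + 1, Steps (A.seq (Block.loop k B)).code (some (Sum.inr none), S) n
      (some (Sum.inr none), S') := by
  obtain ⟨n, hn, h1⟩ := h1
  refine ⟨n + 1, by omega, ?_⟩
  have a1 := Steps.embed (code' := (Block.loop k B).code) (Block.loopL B b) (fun l => some ⟨b, l⟩)
    (fun _ => rfl) (fun _ => rfl) h1
  have a2 : Steps (Block.loop k B).code (some none, S) (n + 1) (some none, S') := by
    refine Steps.step _ _ _ _ ?_
    simp only [Block.loop, Instr.exec, h, List.head?_cons, List.tail_cons]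
    exact a1
  exact Steps.embed (code' := (A.seq (Block.loop k B)).code) (Option.map Sum.inr) Sum.inr
    (fun _ => rfl) (fun _ => rfl) a2

theorem loop_exit (A : Block K) (B : Bool → Block K) (k : K) {S : St K} (h : S k = []) :
    ∃ n ≤ 1, Steps (A.seq (Block.loop k B)).code (some (Sum.inr none), S) n (none, S) := by
  obtain ⟨n, hn, h1⟩ := Block.runs_loop_nil (B := B) h
  exact ⟨n, hn, Steps.embed (code' := (A.seq (Block.loop k B)).code) (Option.map Sum.inr) Sum.inr
    (fun _ => rfl) (fun _ => rfl) h1⟩

theorem loop_enter (A : Block K) (B : Bool → Block K) (k : K) {S S' : St K} {t : ℕ}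
    (h : A.Runs S S' t) : ∃ n ≤ t, Steps (A.seq (Block.loop k B)).code
      ((A.seq (Block.loop k B)).entry, S) n (some (Sum.inr none), S') := by
  obtain ⟨n, hn, h1⟩ := h
  exact ⟨n, hn, Steps.embed (code' := (A.seq (Block.loop k B)).code)
    (Block.seqL A (Block.loop k B)) Sum.inl (fun _ => rfl) (fun _ => rfl) h1⟩

end machine

theorem ext0_single {R L : Type} [DecidableEq R] [DecidableEq L] (r : R) (z : List Bool) :
    ext0 L (single r z) = single (Sum.inl r) z := by
  funext k
  rcases k with k | k
  · by_cases h : k = r
    · subst h; simp
    · simp [single, h]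
  · simp [single]

theorem single_length {K : Type} [DecidableEq K] (r k : K) (z : List Bool) :
    (single r z k).length ≤ z.length := by
  unfold single; split_ifs <;> simp

/-- Iterating a polynomial-time map on data of polynomial size until an answer appears. -/
theorem mem_PSPACE_of_iter {C : Type} [Enc C] {L : List Bool → Bool} {f : C → C} (hf : PT f)
    {s : List Bool → C} (hs : PT s) {out : C → Option Bool} (ho : PT out) {m : List Bool → ℕ}
    (hm : PB m) (hb : ∀ x i, size (f^[i] (s x)) ≤ m x)
    (hfix : ∀ c, out c ≠ none → f c = c) (hL : ∀ x, ∃ n, out (f^[n] (s x)) = some (L x)) :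
    L ∈ PSPACE := by
  classical
  let wrap : C → List Bool := fun c => (out c).elim (true :: enc c) (fun b => [false, b])
  have hw : PT wrap := by simp only [wrap]; fun_prop
  have hwl : ∀ c, (wrap c).length ≤ size c + 2 := by
    intro c; simp only [wrap]; cases out c <;> simp [size]
  obtain ⟨P₀, p₀, hP₀⟩ : Cmp (enc : List Bool → _) (fun x => wrap (s x)) :=
    PT.toRaw.comp' (hw.comp' hs)
  obtain ⟨P, p, hP⟩ : Cmp (enc : C → _) (fun c => wrap (f c)) := PT.toRaw.comp' (hw.comp' hf)
  obtain ⟨q, hq⟩ := hm
  let mv : Proc Bool := Proc.move true false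
  let L' : Type := P₀.L ⊕ P.L ⊕ mv.L
  let A : Block (Bool ⊕ L') := (Proc.onReg true P₀).B.ren (Sum.map id Sum.inl)
  let B : Bool → Block (Bool ⊕ L') := fun b => match b with
    | true => (Proc.onReg true P).B.ren (Sum.map id (Sum.inr ∘ Sum.inl))
    | false => mv.B.ren (Sum.map id (Sum.inr ∘ Sum.inr))
  let Q : Block (Bool ⊕ L') := A.seq (Block.loop (Sum.inl true) B)
  let bound : List Bool → ℕ := fun x =>
    size x + p₀.eval (size x) + q.eval (size x) + p.eval (q.eval (size x)) + 10
  have upd : ∀ z z' : List Bool, update (single true z) true z' = single true z' := by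
    intro z z'; funext k; cases k <;> simp [single]
  have upd' : ∀ z z' : List Bool, update (single (Sum.inl true : Bool ⊕ L') z) (Sum.inl true) z' =
      single (Sum.inl true) z' := by
    intro z z'; rw [← ext0_single, update_ext0, upd, ext0_single]
  have main : ∀ x, BSteps Q.code (bound x) (Q.entry, single (Sum.inl true) (enc x))
      (none, single (Sum.inl false) [L x]) := by
    intro x
    have loop : ∀ n i, out (f^[n] (f^[i] (s x))) = some (L x) →
        BSteps Q.code (bound x) (some (Sum.inr none), single (Sum.inl true) (wrap (f^[i] (s x))))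
          (none, single (Sum.inl false) [L x]) := by
      have fin : ∀ c, out c = some (L x) → BSteps Q.code (bound x)
          (some (Sum.inr none), single (Sum.inl true) (wrap c))
          (none, single (Sum.inl false) [L x]) := by
        intro c hc
        have e : wrap c = [false, L x] := by simp [wrap, hc]
        rw [e]
        have r1 := (Proc.runs_move (k := true) (j := false) (by simp) (single true [L x])).widen
          (L' := L') (Sum.inr ∘ Sum.inr) (Sum.inr_injective.comp Sum.inr_injective)
        have e2 : update (update (single true [L x]) true []) false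
            ((single true [L x] true).reverse ++ single true [L x] false) = single false [L x] := by
          funext k; cases k <;> simp [single]
        rw [e2, ext0_single, ext0_single, ← upd' [false, L x]] at r1
        obtain ⟨n1, a1, a2⟩ := loop_iter A B (Sum.inl true) (b := false) (single_self _ _) r1
        obtain ⟨n2, a3, a4⟩ := loop_exit A B (Sum.inl true)
          (S := single (Sum.inl false) [L x]) (by simp [single])
        refine BSteps.of_steps (a2.trans a4) fun k => ?_
        have := single_length (Sum.inl true : Bool ⊕ L') k [false, L x]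
        simp only [single_self, List.length_cons, List.length_nil, bound] at this a1 ⊢
        omega
      intro n
      induction n with
      | zero => intro i h; exact fin _ h
      | succ n ih =>
        intro i h
        cases hc : out (f^[i] (s x)) with
        | some b =>
          have := hfix _ (by rw [hc]; simp)
          rw [Function.iterate_fixed this] at h
          exact fin _ h
        | none =>
          have e : wrap (f^[i] (s x)) = true :: enc (f^[i] (s x)) := by simp [wrap, hc]
          rw [e]
          have r1 := ((hP (f^[i] (s x))).onReg true (single true (enc (f^[i] (s x))))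
            (single_self _ _)).widen (L' := L') (Sum.inr ∘ Sum.inl)
            (Sum.inr_injective.comp Sum.inl_injective)
          rw [upd, ext0_single, ext0_single, ← upd' (true :: enc (f^[i] (s x)))] at r1
          obtain ⟨n1, a1, a2⟩ := loop_iter A B (Sum.inl true) (b := true) (single_self _ _) r1
          have h' : out (f^[n] (f^[i + 1] (s x))) = some (L x) := by
            rw [Function.iterate_succ_apply', ← Function.iterate_succ_apply]; exact h
          have := ih (i + 1) h'
          rw [Function.iterate_succ_apply'] at this
          refine (BSteps.of_steps a2 fun k => ?_).trans this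
          have b1 := single_length (Sum.inl true : Bool ⊕ L') k (true :: enc (f^[i] (s x)))
          have b2 : (enc (f^[i] (s x))).length ≤ q.eval (size x) := (hb x i).trans (hq x)
          have b3 := eval_mono p b2
          simp only [List.length_cons, bound] at b1 ⊢
          omega
    obtain ⟨n, hn⟩ := hL x
    have r1 := ((hP₀ x).onReg true (single true (enc x)) (single_self _ _)).widen (L' := L')
      Sum.inl Sum.inl_injective
    rw [upd, ext0_single, ext0_single] at r1
    obtain ⟨n1, a1, a2⟩ := loop_enter A B (Sum.inl true) r1
    refine (BSteps.of_steps a2 fun k => ?_).trans (loop n 0 hn)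
    have b1 := single_length (Sum.inl true : Bool ⊕ L') k (enc x)
    simp only [bound, size] at b1 ⊢
    omega
  refine ⟨⟨⟨toTM Q (Sum.inl true) (Sum.inl false), Equiv.refl Bool, Equiv.refl Bool⟩, fun x => ?_⟩,
    (Polynomial.X + p₀ + q + p.comp q + 10).comp (3 * Polynomial.X), fun x c hc k => ?_⟩
  · have : Nonempty (TM2Outputs (toTM Q (Sum.inl true) (Sum.inl false)) (enc x) (some [L x])) := by
      obtain ⟨n, hn⟩ := (main x).steps
      obtain ⟨h⟩ := toTM_outputs Q _ _ (enc x) [L x] n ⟨n, le_rfl, hn⟩
      exact ⟨h.toTM2Outputs⟩
    have h := this.some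
    have e1 : ∀ l : List Bool, List.map (Equiv.refl Bool).invFun l = l := fun l => List.map_id l
    erw [e1, e1]
    exact h
  · have e1 : initList (toTM Q (Sum.inl true) (Sum.inl false))
        (List.map (Equiv.refl Bool).invFun (bitEncode x)) =
        (⟨some Q.entry, none, single (Sum.inl true) (enc x)⟩ :
          (toTM Q (Sum.inl true) (Sum.inl false)).Cfg) := by
      have : List.map (Equiv.refl Bool).invFun (bitEncode x) = enc x := List.map_id _
      erw [this]
      simp only [initList, toTM]
      congr 1
    simp only at hc
    erw [e1] at hc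
    refine (toTM_space Q _ _ (main x) rfl none c hc k).trans (le_of_eq ?_)
    simp [bound, size_listBool, Polynomial.eval_comp]

section game

variable {α : Type}

/-- One step of the depth-first evaluation of a game tree. -/
def dfsStep (moves : α → List α) (c : Option Bool × List (List α)) :
    Option Bool × List (List α) :=
  match c with
  | (o, []) => (o, [])
  | (none, [] :: st) => (some false, st)
  | (none, (b :: r) :: st) => (none, moves b :: r :: st)
  | (some false, _ :: st) => (some true, st)
  | (some true, r :: st) => (none, r :: st)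

theorem dfs_run (moves : α → List α) (win : α → Bool) (rk : α → ℕ)
    (hwin : ∀ a, win a = (moves a).any (fun b => !win b))
    (hrk : ∀ a, ∀ b ∈ moves a, rk b < rk a) (D : ℕ) : ∀ (l : List α) (st : List (List α)),
    (∀ a ∈ l, rk a < D) →
    ∃ n, (dfsStep moves)^[n] (none, l :: st) = (some (l.any fun b => !win b), st) := by
  induction D with
  | zero =>
    intro l st h
    cases l with
    | nil => exact ⟨1, rfl⟩
    | cons a l => exact absurd (h a (by simp)) (by simp)
  | succ D ih =>
    intro l st h
    induction l with
    | nil => exact ⟨1, rfl⟩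
    | cons a l ihl =>
      obtain ⟨n1, h1⟩ := ih (moves a) (l :: st) (fun b hb => by
        have := hrk a b hb
        have := h a (by simp)
        omega)
      rw [← hwin] at h1
      have h2 : (dfsStep moves)^[n1 + 1] (none, (a :: l) :: st) = (some (win a), l :: st) := by
        rw [Function.iterate_succ_apply]; exact h1
      cases hw : win a with
      | false =>
        refine ⟨n1 + 1 + 1, ?_⟩
        rw [Function.iterate_succ_apply', h2, hw]
        simp [dfsStep, hw]
      | true =>
        obtain ⟨n2, h3⟩ := ihl (fun b hb => h b (List.mem_cons_of_mem _ hb))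
        refine ⟨n2 + (1 + (n1 + 1)), ?_⟩
        rw [Function.iterate_add_apply, Function.iterate_add_apply, h2, hw]
        simpa [dfsStep, hw] using h3

variable [Enc α]

theorem dfsStep_pt {moves : α → List α} (hm : PT moves) : PT (dfsStep moves) := by
  have : PT (fun c : Option Bool × List (List α) =>
      c.2.head?.elim c (fun l => c.1.elim
        (l.head?.elim (some false, c.2.tail) (fun b => (none, moves b :: l.tail :: c.2.tail)))
        (fun v => bif v then (none, c.2) else (some true, c.2.tail)))) := by fun_prop
  refine this.of_eq ?_
  rintro ⟨_ | _ | _, _ | ⟨_ | ⟨b, r⟩, st⟩⟩ <;> rfl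

/-- invariant of the stack -/
def Good (ok : α → Prop) (rk : α → ℕ) (D m : ℕ) : List (List α) → Prop
  | [] => True
  | l :: st => (∀ b ∈ l, ok b ∧ rk b + st.length < D) ∧ size l ≤ m ∧ st.length ≤ D ∧
      Good ok rk D m st

theorem good_step {moves : α → List α} {ok : α → Prop} {rk : α → ℕ} {D m : ℕ}
    (hrk : ∀ a, ∀ b ∈ moves a, rk b < rk a)
    (hok : ∀ a, ok a → size (moves a) ≤ m ∧ ∀ b ∈ moves a, ok b)
    (c : Option Bool × List (List α)) (h : Good ok rk D m c.2) :
    Good ok rk D m (dfsStep moves c).2 := by
  rcases c with ⟨_ | _ | _, _ | ⟨_ | ⟨b, r⟩, st⟩⟩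
  · exact h
  · exact h.2.2.2
  · obtain ⟨h1, h2, h3, h4⟩ := h
    have hb := h1 b (by simp)
    refine ⟨fun d hd => ⟨(hok b hb.1).2 d hd, ?_⟩, (hok b hb.1).1, by simp; omega,
      fun d hd => h1 d (List.mem_cons_of_mem _ hd), ?_, h3, h4⟩
    · have := hrk b d hd
      simp; omega
    · simp at h2; omega
  · exact h
  · exact h.2.2.2
  · exact h.2.2.2
  · exact h
  · exact h
  · exact h

theorem good_size {ok : α → Prop} {rk : α → ℕ} {D m : ℕ} (st : List (List α))
    (h : Good ok rk D m st) : size st ≤ (D + 1) * (2 * m + 1) := by
  have h1 : ∀ st : List (List α), Good ok rk D m st → ∀ l ∈ st, size l ≤ m := by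
    intro st
    induction st with
    | nil => simp
    | cons l st ih =>
      intro h l' hl'
      rcases List.mem_cons.mp hl' with rfl | h2
      · exact h.2.1
      · exact ih h.2.2.2 l' h2
  refine (size_list_le st m (h1 st h)).trans (Nat.mul_le_mul_right _ ?_)
  cases st with
  | nil => simp
  | cons l st => have := h.2.2.1; simp; omega

/-- Evaluation of games of polynomial depth with positions of polynomial size. -/
theorem mem_PSPACE_of_game {L : List Bool → Bool} {moves : α → List α} (hm : PT moves)
    (win : α → Bool) (rk : α → ℕ) (hwin : ∀ a, win a = (moves a).any (fun b => !win b))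
    (hrk : ∀ a, ∀ b ∈ moves a, rk b < rk a) {start : List Bool → List α} (hs : PT start)
    {post : List Bool × Bool → Bool} (hp : PT post) (ok : List Bool → α → Prop)
    {m : List Bool → ℕ} (hmb : PB m)
    (hok : ∀ x a, ok x a → size (moves a) ≤ m x ∧ ∀ b ∈ moves a, ok x b)
    (hstart : ∀ x, size (start x) ≤ m x ∧ ∀ a ∈ start x, ok x a ∧ rk a < m x)
    (hL : ∀ x, L x = post (x, (start x).any fun b => !win b)) : L ∈ PSPACE := by
  have h1 := dfsStep_pt hm
  have hit : ∀ (x : List Bool) (c : Option Bool × List (List α)) (i : ℕ),
      (fun z : List Bool × Option Bool × List (List α) => (z.1, dfsStep moves z.2))^[i] (x, c) =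
        (x, (dfsStep moves)^[i] c) := by
    intro x c i
    induction i generalizing c with
    | zero => rfl
    | succ i ih => rw [Function.iterate_succ_apply, Function.iterate_succ_apply, ih]
  refine mem_PSPACE_of_iter (C := List Bool × Option Bool × List (List α))
    (f := fun z => (z.1, dfsStep moves z.2)) (by fun_prop)
    (s := fun x => (x, none, [start x])) (by fun_prop)
    (out := fun z => if z.2.2 = [] then z.2.1.map (fun v => post (z.1, v)) else none)
    (by fun_prop) (m := fun x => 2 * size x + 8 + (m x + 1) * (2 * m x + 1)) (by fun_prop)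
    ?_ ?_ ?_
  · intro x i
    rw [hit]
    have hg : Good (ok x) rk (m x) (m x) ((dfsStep moves)^[i] (none, [start x])).2 := by
      induction i with
      | zero =>
        exact ⟨fun b hb => by simpa using (hstart x).2 b hb, (hstart x).1, by simp, trivial⟩
      | succ i ih =>
        rw [Function.iterate_succ_apply']
        exact good_step hrk (hok x) _ ih
    have h2 := good_size _ hg
    generalize (dfsStep moves)^[i] (none, [start x]) = c at h2
    have h3 : size c.1 ≤ 3 := by
      rcases c.1 with _ | b <;> simp
    simp only [size_prod]
    omega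
  · rintro ⟨x, o, st⟩ h
    cases st with
    | nil => rfl
    | cons l st => simp at h
  · intro x
    obtain ⟨n, hn⟩ := dfs_run moves win rk hwin hrk (m x) (start x) []
      (fun a ha => ((hstart x).2 a ha).2)
    refine ⟨n, ?_⟩
    rw [hit, hn, hL]
    simp

end game

end Pool.Agent.Lib.CxPspace
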