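import Mathlib

namespace Pool.Agent.Lib.CxPspace

/-- A CNF formula: a list of clauses, a clause being a list of literals `(v, b)` (read `x_v = b`). -/
abbrev Cnf : Type := List (List (ℕ × Bool))

/-- The assignment `a` (a list of the values of `x_0, x_1, ...`) satisfies `φ`; a literal whose
variable has no value is false. -/
def CnfSat (φ : Cnf) (a : List Bool) : Prop := ∀ C ∈ φ, ∃ l ∈ C, a[l.1]? = some l.2

/-- Truth of the prenex formula with matrix `φ`, remaining quantifiers `qs` (`true` is `∃`,
`false` is `∀`), after the values `a` have been given to the first variables. -/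
def QbfTrue (φ : Cnf) : List Bool → List Bool → Prop
  | [], a => CnfSat φ a
  | true :: qs, a => ∃ b, QbfTrue φ qs (a ++ [b])
  | false :: qs, a => ∀ b, QbfTrue φ qs (a ++ [b])

end Pool.Agent.Lib.CxPspace
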