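import Pool.Agent.Lib.Cx.All
import Pool.Agent.Lib.CxPspace.QBF

/-!
Exponentially long iteration of a length-preserving polynomial-time map reduces to QBF truth.
-/

namespace Pool.Agent.Lib.CxPspace

open Pool.Agent.Lib.Cx

/-- Prenex truth with an arbitrary matrix. -/
def QE (E : List Bool → Prop) : List Bool → List Bool → Prop
  | [], a => E a
  | true :: qs, a => ∃ b, QE E qs (a ++ [b])
  | false :: qs, a => ∀ b, QE E qs (a ++ [b])

theorem qbfTrue_iff (φ : Cnf) (qs a : List Bool) : QbfTrue φ qs a ↔ QE (CnfSat φ) qs a := by
  induction qs generalizing a with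
  | nil => rfl
  | cons q qs ih => cases q <;> simp [QbfTrue, QE, ih]

theorem QE_congr {E E' : List Bool → Prop} (qs a : List Bool)
    (h : ∀ l, l.length = qs.length → (E (a ++ l) ↔ E' (a ++ l))) : QE E qs a ↔ QE E' qs a := by
  induction qs generalizing a with
  | nil => simpa [QE] using h [] rfl
  | cons q qs ih =>
    have : ∀ b, QE E qs (a ++ [b]) ↔ QE E' qs (a ++ [b]) := fun b =>
      ih _ fun l hl => by simpa using h (b :: l) (by simp [hl])
    cases q <;> simp [QE, this]

theorem QE_shift (E : List Bool → Prop) (qs p a : List Bool) :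
    QE E qs (p ++ a) ↔ QE (fun l => E (p ++ l)) qs a := by
  induction qs generalizing a with
  | nil => rfl
  | cons q qs ih => cases q <;> simp only [QE, List.append_assoc, ih]

theorem QE_and (P : Prop) (E : List Bool → Prop) (qs a : List Bool) :
    QE (fun l => P ∧ E l) qs a ↔ P ∧ QE E qs a := by
  induction qs generalizing a with
  | nil => rfl
  | cons q qs ih =>
    cases q
    · simp only [QE, ih]
      exact ⟨fun h => ⟨(h true).1, fun b => (h b).2⟩, fun h b => ⟨h.1, h.2 b⟩⟩
    · simp only [QE, ih]
      exact ⟨fun ⟨b, h⟩ => ⟨h.1, b, h.2⟩, fun ⟨h, b, h'⟩ => ⟨b, h, h'⟩⟩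

theorem QE_block (E : List Bool → Prop) (r : ℕ) (qs a : List Bool) :
    QE E (List.replicate r true ++ qs) a ↔ ∃ w : List Bool, w.length = r ∧ QE E qs (a ++ w) := by
  induction r generalizing a with
  | zero => simp
  | succ r ih =>
    simp only [List.replicate_succ, List.cons_append, QE, ih]
    constructor
    · rintro ⟨b, w, h1, h2⟩
      exact ⟨b :: w, by simp [h1], by simpa using h2⟩
    · rintro ⟨w, h1, h2⟩
      cases w with
      | nil => simp at h1
      | cons b w => exact ⟨b, w, by simpa using h1, by simpa using h2⟩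

/-- `n` entries from position `o`. -/
def slice (l : List Bool) (o n : ℕ) : List Bool := (l.drop o).take n

theorem slice_drop (l : List Bool) (d o n : ℕ) : slice (l.drop d) o n = slice l (d + o) n := by
  simp [slice]

theorem slice_append {w : List Bool} (l : List Bool) {o n : ℕ} (h : o + n ≤ w.length) :
    slice (w ++ l) o n = slice w o n := by
  unfold slice
  rw [List.drop_append_of_le_length (by omega), List.take_append_of_le_length (by simp; omega)]

theorem slice_get (l : List Bool) (o n i : ℕ) :
    (slice l o n)[i]? = if i < n then l[o + i]? else none := by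
  simp [slice, List.getElem?_take]

theorem slice_eq_iff (l l' : List Bool) (o o' n : ℕ) :
    slice l o n = slice l' o' n ↔ ∀ i < n, l[o + i]? = l'[o' + i]? := by
  constructor
  · intro h i hi
    have := congrArg (·[i]?) h
    simpa [slice_get, hi] using this
  · intro h
    apply List.ext_getElem?
    intro i
    simp only [slice_get]
    split_ifs with hi
    · exact h i hi
    · rfl

theorem slice_self (w : List Bool) : slice w 0 w.length = w := by simp [slice]

/-- The quantifier prefix. -/
def prefixQ (m A t : ℕ) : List Bool :=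
  (List.range t).flatMap (fun _ => List.replicate (3 * m) true ++ [false]) ++
    List.replicate (2 * m + A) true

theorem prefixQ_succ (m A t : ℕ) :
    prefixQ m A (t + 1) = List.replicate (3 * m) true ++ false :: prefixQ m A t := by
  unfold prefixQ
  rw [List.range_succ_eq_map, List.flatMap_cons, List.flatMap_map]
  simp

theorem length_prefixQ (m A t : ℕ) : (prefixQ m A t).length = t * (3 * m + 1) + (2 * m + A) := by
  induction t with
  | zero => simp [prefixQ]
  | succ t ih => rw [prefixQ_succ]; simp [ih]; ring

/-- The semantic matrix. -/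
def Sem (m : ℕ) (St : List Bool → Prop) : ℕ → List Bool → List Bool → List Bool → Prop
  | 0, a, b, l => slice l 0 m = a ∧ slice l m m = b ∧ St l
  | t + 1, a, b, l => slice l 0 m = a ∧ slice l m m = b ∧
      if l[3 * m]? = some true then Sem m St t a (slice l (2 * m) m) (l.drop (3 * m + 1))
      else Sem m St t (slice l (2 * m) m) b (l.drop (3 * m + 1))

theorem QE_sem {F : List Bool → List Bool} (hF : ∀ w, (F w).length = w.length) (m A : ℕ)
    (St : List Bool → Prop)
    (hSt : ∀ a b : List Bool, a.length = m → b.length = m → (F a = b ↔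
      ∃ w : List Bool, w.length = 2 * m + A ∧ slice w 0 m = a ∧ slice w m m = b ∧ St w))
    (t : ℕ) (a b : List Bool) (ha : a.length = m) (hb : b.length = m) :
    QE (Sem m St t a b) (prefixQ m A t) [] ↔ F^[2 ^ t] a = b := by
  induction t generalizing a b with
  | zero =>
    have : prefixQ m A 0 = List.replicate (2 * m + A) true ++ [] := by simp [prefixQ]
    rw [this, QE_block]
    simp only [QE, Sem, List.nil_append, pow_zero, Function.iterate_one]
    exact (hSt a b ha hb).symm
  | succ t ih =>
    have hit : ∀ n (w : List Bool), (F^[n] w).length = w.length := by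
      intro n
      induction n with
      | zero => intro w; rfl
      | succ n ihn => intro w; rw [Function.iterate_succ_apply', hF, ihn]
    rw [prefixQ_succ, QE_block]
    have key : ∀ w : List Bool, w.length = 3 * m →
        (QE (Sem m St (t + 1) a b) (false :: prefixQ m A t) ([] ++ w) ↔
          (slice w 0 m = a ∧ slice w m m = b) ∧ F^[2 ^ t] a = slice w (2 * m) m ∧
            F^[2 ^ t] (slice w (2 * m) m) = b) := by
      intro w hw
      have hc : (slice w (2 * m) m).length = m := by simp [slice]; omega
      have e : ∀ s : Bool, QE (Sem m St (t + 1) a b) (prefixQ m A t) (w ++ [s]) ↔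
          (slice w 0 m = a ∧ slice w m m = b) ∧ (if s then F^[2 ^ t] a = slice w (2 * m) m
            else F^[2 ^ t] (slice w (2 * m) m) = b) := by
        intro s
        have e1 : ∀ l, Sem m St (t + 1) a b (w ++ [s] ++ l) ↔
            (slice w 0 m = a ∧ slice w m m = b) ∧ (if s then Sem m St t a (slice w (2 * m) m) l
              else Sem m St t (slice w (2 * m) m) b l) := by
          intro l
          have d1 : (w ++ [s] ++ l).drop (3 * m + 1) = l := by
            rw [List.drop_append_of_le_length (by simp [hw])]
            simp [hw]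
          have d2 : (w ++ [s] ++ l)[3 * m]? = some s := by
            rw [List.append_assoc, List.getElem?_append_right (by omega)]
            simp [hw]
          rw [Sem, d1, d2, List.append_assoc, slice_append _ (by omega), slice_append _ (by omega),
            slice_append _ (by omega), and_assoc]
          cases s <;> simp
        have := QE_shift (Sem m St (t + 1) a b) (prefixQ m A t) (w ++ [s]) []
        rw [List.append_nil] at this
        rw [this]
        simp only [e1]
        rw [QE_and]
        cases s
        · simp only [Bool.false_eq_true, if_false]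
          rw [ih _ _ hc hb]
        · simp only [if_true]
          rw [ih _ _ ha hc]
      simp only [QE, List.nil_append, e]
      constructor
      · intro h
        exact ⟨(h true).1, by simpa using (h true).2, by simpa using (h false).2⟩
      · rintro ⟨h1, h2, h3⟩ s
        cases s
        · exact ⟨h1, by simpa using h3⟩
        · exact ⟨h1, by simpa using h2⟩
    rw [pow_succ, mul_two, Function.iterate_add_apply]
    constructor
    · rintro ⟨w, hw, h⟩
      obtain ⟨_, h2, h3⟩ := (key w hw).1 h
      rw [h2, h3]
    · intro h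
      have hc : (F^[2 ^ t] a).length = m := by rw [hit, ha]
      have hw : (a ++ b ++ F^[2 ^ t] a).length = 3 * m := by simp [ha, hb, hc]; ring
      have s3 : slice (a ++ b ++ F^[2 ^ t] a) (2 * m) m = F^[2 ^ t] a := by
        unfold slice
        rw [List.drop_append_of_le_length (by simp [ha, hb]; omega),
          List.drop_of_length_le (by simp [ha, hb]; omega), List.nil_append, ← hc, List.take_length]
      refine ⟨_, hw, (key _ hw).2 ⟨⟨?_, ?_⟩, s3.symm, by rw [s3]; exact h⟩⟩
      · rw [List.append_assoc, slice_append _ (by omega), ← ha, slice_self]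
      · rw [slice_append _ (by simp [ha, hb])]
        unfold slice
        rw [List.drop_append_of_le_length (by omega), List.drop_of_length_le (by omega),
          List.nil_append, ← hb, List.take_length]

/-- unit clauses fixing the word `w` at position `o` -/
def unitCl (o : ℕ) (w : List Bool) : Cnf := w.zipIdx.map fun z => [(o + z.2, z.1)]

/-- unless `x_s = !β`, the words of length `m` at `o₁` and `o₂` agree -/
def eqCl (s : ℕ) (β : Bool) (o₁ o₂ m : ℕ) : Cnf :=
  (List.range m).flatMap fun i =>
    [[(s, !β), (o₁ + i, true), (o₂ + i, false)], [(s, !β), (o₁ + i, false), (o₂ + i, true)]]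

/-- the link between the level at offset `o` and the next one -/
def linkCl (m o : ℕ) : Cnf :=
  eqCl (o + 3 * m) true (o + (3 * m + 1)) o m ++
  eqCl (o + 3 * m) true (o + (3 * m + 1) + m) (o + 2 * m) m ++
  eqCl (o + 3 * m) false (o + (3 * m + 1)) (o + 2 * m) m ++
  eqCl (o + 3 * m) false (o + (3 * m + 1) + m) (o + m) m

/-- a 3-CNF formula with shifted variables -/
def shiftCl (o : ℕ) (Φ : List (Clause3 ℕ)) : Cnf :=
  Φ.map fun c => [(o + c.1.1, c.1.2), (o + c.2.1.1, c.2.1.2), (o + c.2.2.1, c.2.2.2)]

/-- the matrix -/
def matrixCl (a b : List Bool) (k : ℕ) (Φ : List (Clause3 ℕ)) : Cnf :=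
  unitCl 0 a ++ unitCl a.length b ++
    (List.range k).flatMap (fun j => linkCl a.length (j * (3 * a.length + 1))) ++
    shiftCl (k * (3 * a.length + 1)) Φ

theorem cnfSat_append (φ ψ : Cnf) (l : List Bool) :
    CnfSat (φ ++ ψ) l ↔ CnfSat φ l ∧ CnfSat ψ l := by
  simp only [CnfSat, List.mem_append, or_imp, forall_and]

theorem cnfSat_flatMap {α : Type} (s : List α) (f : α → Cnf) (l : List Bool) :
    CnfSat (s.flatMap f) l ↔ ∀ x ∈ s, CnfSat (f x) l := by
  simp only [CnfSat, List.mem_flatMap, forall_exists_index, and_imp]
  exact ⟨fun h x hx C hC => h C x hx hC, fun h C x hx hC => h x hx C hC⟩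

theorem unitCl_sat (o : ℕ) (w l : List Bool) : CnfSat (unitCl o w) l ↔ slice l o w.length = w := by
  rw [show (slice l o w.length = w) ↔ slice l o w.length = slice w 0 w.length by rw [slice_self],
    slice_eq_iff]
  simp only [CnfSat, unitCl, List.mem_map, forall_exists_index, and_imp, zero_add]
  constructor
  · intro h i hi
    have := h _ (w[i], i) (by simp [List.mem_zipIdx_iff_getElem?]) rfl
    simpa [List.getElem?_eq_getElem hi] using this
  · rintro h _ ⟨b, i⟩ hz rfl
    rw [List.mem_zipIdx_iff_getElem?] at hz
    simp only at hz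
    simp only [List.mem_singleton, exists_eq_left]
    rw [h i (List.getElem?_eq_some_iff.mp hz).1, hz]

theorem eqCl_sat (s : ℕ) (β : Bool) (o₁ o₂ m : ℕ) (l : List Bool) (h1 : o₁ + m ≤ l.length)
    (h2 : o₂ + m ≤ l.length) :
    CnfSat (eqCl s β o₁ o₂ m) l ↔ l[s]? = some (!β) ∨ slice l o₁ m = slice l o₂ m := by
  rw [eqCl, cnfSat_flatMap, slice_eq_iff]
  by_cases hs : l[s]? = some (!β)
  · simp only [CnfSat, List.mem_cons, List.not_mem_nil, or_false, forall_eq_or_imp, forall_eq,
      exists_eq_or_imp, exists_eq_left, hs, true_or, and_self, implies_true]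
  · simp only [hs, false_or, List.mem_range]
    refine forall₂_congr fun i hi => ?_
    simp only [CnfSat, List.mem_cons, List.not_mem_nil, or_false, forall_eq_or_imp, forall_eq,
      exists_eq_or_imp, exists_eq_left, hs, false_or]
    rw [List.getElem?_eq_getElem (show o₁ + i < l.length by omega),
      List.getElem?_eq_getElem (show o₂ + i < l.length by omega)]
    cases l[o₁ + i] <;> cases l[o₂ + i] <;> simp

theorem linkCl_sat (m o : ℕ) (l : List Bool) (h : o + (3 * m + 1) + 2 * m ≤ l.length) :
    CnfSat (linkCl m o) l ↔ if l[o + 3 * m]? = some true then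
      slice l (o + (3 * m + 1)) m = slice l o m ∧
        slice l (o + (3 * m + 1) + m) m = slice l (o + 2 * m) m
      else slice l (o + (3 * m + 1)) m = slice l (o + 2 * m) m ∧
        slice l (o + (3 * m + 1) + m) m = slice l (o + m) m := by
  simp only [linkCl, cnfSat_append]
  rw [eqCl_sat _ _ _ _ _ _ (by omega) (by omega), eqCl_sat _ _ _ _ _ _ (by omega) (by omega),
    eqCl_sat _ _ _ _ _ _ (by omega) (by omega), eqCl_sat _ _ _ _ _ _ (by omega) (by omega),
    List.getElem?_eq_getElem (show o + 3 * m < l.length by omega)]
  cases l[o + 3 * m] <;> simp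

theorem shiftCl_sat (o : ℕ) (Φ : List (Clause3 ℕ)) (l : List Bool)
    (h : ∀ v ∈ vars3 Φ, o + v < l.length) :
    CnfSat (shiftCl o Φ) l ↔ ∀ c ∈ Φ, c.Holds (fun v => (l.drop o).getD v false) := by
  simp only [CnfSat, shiftCl, List.mem_map, forall_exists_index, and_imp,
    forall_apply_eq_imp_iff₂]
  refine forall₂_congr fun c hc => ?_
  have key : ∀ v ∈ [c.1.1, c.2.1.1, c.2.2.1], ∀ β,
      l[o + v]? = some β ↔ (l.drop o).getD v false = β := by
    intro v hv β
    have := h v (List.mem_flatMap.2 ⟨c, hc, hv⟩)
    simp [List.getElem?_eq_getElem this]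
  simp only [List.mem_cons, List.not_mem_nil, or_false, exists_eq_or_imp, exists_eq_left,
    Clause3.Holds]
  rw [key _ (by simp), key _ (by simp), key _ (by simp)]

theorem sem_iff (m k : ℕ) (St : List Bool → Prop) (l : List Bool)
    (hl : k * (3 * m + 1) + 2 * m ≤ l.length) (t j : ℕ) (hj : j + t = k) (a b : List Bool) :
    Sem m St t a b (l.drop (j * (3 * m + 1))) ↔
      slice l (j * (3 * m + 1)) m = a ∧ slice l (j * (3 * m + 1) + m) m = b ∧
      (∀ i, j ≤ i → i < k → CnfSat (linkCl m (i * (3 * m + 1))) l) ∧
      St (l.drop (k * (3 * m + 1))) := by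
  induction t generalizing j a b with
  | zero =>
    obtain rfl : j = k := by omega
    simp only [Sem, slice_drop, add_zero]
    refine and_congr_right fun _ => and_congr_right fun _ => ⟨fun h => ⟨fun i h1 h2 => ?_, h⟩, fun h => h.2⟩
    omega
  | succ t ih =>
    simp only [Sem, slice_drop, add_zero, List.drop_drop, List.getElem?_drop]
    have e : j * (3 * m + 1) + (3 * m + 1) = (j + 1) * (3 * m + 1) := by ring
    rw [e, ih (j + 1) (by omega), ih (j + 1) (by omega)]
    refine and_congr_right fun h1 => and_congr_right fun h2 => ?_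
    have hle : (j + 1) * (3 * m + 1) ≤ k * (3 * m + 1) := Nat.mul_le_mul_right _ (by omega)
    have hsplit : (∀ i, j ≤ i → i < k → CnfSat (linkCl m (i * (3 * m + 1))) l) ↔
        CnfSat (linkCl m (j * (3 * m + 1))) l ∧
        ∀ i, j + 1 ≤ i → i < k → CnfSat (linkCl m (i * (3 * m + 1))) l := by
      constructor
      · intro h
        exact ⟨h j le_rfl (by omega), fun i a1 a2 => h i (by omega) a2⟩
      · rintro ⟨a1, a2⟩ i a3 a4
        rcases Nat.eq_or_lt_of_le a3 with rfl | a5
        · exact a1
        · exact a2 i a5 a4
    rw [hsplit, linkCl_sat _ _ _ (by omega), e, h1, h2]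
    split_ifs <;> tauto

theorem matrixCl_sat (a b : List Bool) (hab : b.length = a.length) (k : ℕ) (Φ : List (Clause3 ℕ))
    (A : ℕ) (hΦ : ∀ v ∈ vars3 Φ, v < 2 * a.length + A) (l : List Bool)
    (hl : l.length = k * (3 * a.length + 1) + (2 * a.length + A)) :
    CnfSat (matrixCl a b k Φ) l ↔
      Sem a.length (fun w => ∀ c ∈ Φ, c.Holds (fun v => w.getD v false)) k a b l := by
  have := sem_iff a.length k (fun w => ∀ c ∈ Φ, c.Holds (fun v => w.getD v false)) l (by omega)
    k 0 (by simp) a b
  simp only [zero_mul, List.drop_zero, zero_add] at this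
  rw [this]
  simp only [matrixCl, cnfSat_append, cnfSat_flatMap, unitCl_sat, hab, List.mem_range]
  rw [shiftCl_sat _ _ _ (fun v hv => by have := hΦ v hv; omega)]
  simp only [zero_le, true_implies, and_assoc]

theorem matrixCl_pt {α : Type} [Enc α] {a b : α → List Bool} {k : α → ℕ}
    {Φ : α → List (Clause3 ℕ)} (ha : PT a) (hb : PT b) (hk : PT k) (hk' : PB k) (hΦ : PT Φ) :
    PT (fun x => matrixCl (a x) (b x) (k x) (Φ x)) := by
  have h1 : PT (fun z : ℕ × List Bool => unitCl z.1 z.2) := by unfold unitCl; fun_prop
  have h2 : PT (fun z : ℕ × List (Clause3 ℕ) => shiftCl z.1 z.2) := by unfold shiftCl; fun_prop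
  have h3 : PT (fun z : (ℕ × Bool × ℕ × ℕ) × List Bool =>
      eqCl z.1.1 z.1.2.1 z.1.2.2.1 z.1.2.2.2 z.2.length) := by unfold eqCl; fun_prop
  have h4 : PT (fun z : List Bool × ℕ => linkCl z.1.length z.2) := by
    unfold linkCl
    refine PT.append (PT.append (PT.append ?_ ?_) ?_) ?_
    · exact h3.comp' (f := fun z : List Bool × ℕ => ((z.2 + 3 * z.1.length, true,
        z.2 + (3 * z.1.length + 1), z.2), z.1)) (by fun_prop)
    · exact h3.comp' (f := fun z : List Bool × ℕ => ((z.2 + 3 * z.1.length, true,
        z.2 + (3 * z.1.length + 1) + z.1.length, z.2 + 2 * z.1.length), z.1)) (by fun_prop)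
    · exact h3.comp' (f := fun z : List Bool × ℕ => ((z.2 + 3 * z.1.length, false,
        z.2 + (3 * z.1.length + 1), z.2 + 2 * z.1.length), z.1)) (by fun_prop)
    · exact h3.comp' (f := fun z : List Bool × ℕ => ((z.2 + 3 * z.1.length, false,
        z.2 + (3 * z.1.length + 1) + z.1.length, z.2 + z.1.length), z.1)) (by fun_prop)
  unfold matrixCl
  refine PT.append (PT.append (PT.append ?_ ?_) ?_) ?_
  · exact h1.comp' (f := fun x => (0, a x)) (by fun_prop)
  · exact h1.comp' (f := fun x => ((a x).length, b x)) (by fun_prop)
  · refine PT.flatMap ?_ (by fun_prop)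
    exact h4.comp' (f := fun z : α × ℕ => (a z.1, z.2 * (3 * (a z.1).length + 1))) (by fun_prop)
  · exact h2.comp' (f := fun x => (k x * (3 * (a x).length + 1), Φ x)) (by fun_prop)

/-- Savitch-style reduction to QBF. -/
theorem exists_qbf_of_iter {F : List Bool → List Bool} (hF : ∀ w, (F w).length = w.length)
    (hpt : PT F) : ∃ g : List Bool × List Bool → List Bool × Cnf, PT g ∧
      ∀ a b : List Bool, b.length = a.length →
        (QbfTrue (g (a, b)).2 (g (a, b)).1 [] ↔ F^[2 ^ a.length] a = b) := by
  have h0 : PT (fun z : PT.Raw => z.val) := PT.enc' (f := fun z : PT.Raw => z) PT.id'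
  have h1 : PT (fun z : PT.Raw =>
      decide (F (z.val.take (z.val.length / 2)) = z.val.drop (z.val.length / 2))) := by
    fun_prop
  obtain ⟨Φ, hΦ, hv, hc⟩ := Cmp.exists_cnf h1
  let Ψ : List Bool → List (Clause3 ℕ) := fun a => Φ (List.replicate (2 * a.length) ())
  have hΨ : PT Ψ := by simp only [Ψ]; fun_prop
  refine ⟨fun z => (prefixQ z.1.length (3 * (Ψ z.1).length) z.1.length,
    matrixCl z.1 z.2 z.1.length (Ψ z.1)), ?_, fun a b hab => ?_⟩
  · refine PT.prodMk ?_ (matrixCl_pt (by fun_prop) (by fun_prop) (by fun_prop) (by fun_prop)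
      (by fun_prop))
    unfold prefixQ
    fun_prop
  · have hvars : ∀ v ∈ vars3 (Ψ a), v < 2 * a.length + 3 * (Ψ a).length := by
      intro v h
      simpa using hv _ v h
    simp only
    rw [qbfTrue_iff, QE_congr (E' := Sem a.length
      (fun w => ∀ c ∈ Ψ a, c.Holds (fun v => w.getD v false)) a.length a b) _ _ (fun l hl => by
        rw [List.nil_append]
        exact matrixCl_sat a b hab _ _ _ hvars l (by rw [hl, length_prefixQ]))]
    refine QE_sem hF _ _ _ ?_ _ a b rfl hab
    intro c d hc' hd
    have he : enc (PT.Raw.mk (c ++ d)) = c ++ d := rfl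
    have h2 := hc ⟨c ++ d⟩ (List.replicate (2 * a.length) ()) (by rw [he]; simp [hc', hd]; ring)
    have e1 : (c ++ d).length / 2 = c.length := by simp [hc', hd]; omega
    simp only [e1, List.take_left', List.drop_left', decide_eq_true_eq] at h2
    rw [h2]
    constructor
    · rintro ⟨s, s1, s2⟩
      have hg : ∀ v, v < 2 * a.length + 3 * (Ψ a).length →
          ((List.range (2 * a.length + 3 * (Ψ a).length)).map s)[v]? = some (s v) := by
        intro v hv
        simp [hv]
      have hs : ∀ j, j < 2 * a.length → (c ++ d)[j]? = some (s j) := by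
        intro j hj
        have h3 : j < (enc (PT.Raw.mk (c ++ d))).length := by rw [he]; simp [hc', hd]; omega
        rw [s1 j h3]
        exact List.getElem?_eq_getElem h3
      refine ⟨(List.range (2 * a.length + 3 * (Ψ a).length)).map s, by simp, ?_, ?_, ?_⟩
      · rw [← slice_self c, hc', slice_eq_iff]
        intro i hi
        rw [zero_add, hg i (by omega), ← hs i (by omega), List.getElem?_append_left (by omega)]
      · rw [← slice_self d, hd, slice_eq_iff]
        intro i hi
        rw [zero_add, hg _ (by omega), ← hs _ (by omega), List.getElem?_append_right (by omega)]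
        congr 1
        omega
      · intro cl hcl
        have key : ∀ v ∈ [cl.1.1, cl.2.1.1, cl.2.2.1],
            ((List.range (2 * a.length + 3 * (Ψ a).length)).map s).getD v false = s v := by
          intro v hv
          rw [List.getD_eq_getElem?_getD, hg v (hvars v (List.mem_flatMap.2 ⟨cl, hcl, hv⟩))]
          rfl
        have := s2 cl hcl
        simp only [Clause3.Holds] at this ⊢
        rw [key _ (by simp), key _ (by simp), key _ (by simp)]
        exact this
    · rintro ⟨w, w1, w2, w3, w4⟩
      refine ⟨fun v => w.getD v false, fun j hj => ?_, w4⟩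
      have hj' : j < 2 * a.length := by rw [he] at hj; simp [hc', hd] at hj; omega
      have : w[j]? = (c ++ d)[j]? := by
        by_cases h : j < a.length
        · rw [List.getElem?_append_left (by omega), ← w2, slice_get, if_pos h, zero_add]
        · rw [List.getElem?_append_right (by omega), ← w3, slice_get, if_pos (by omega)]
          congr 1
          omega
      simp only
      rw [List.getD_eq_getElem?_getD, this]
      have h4 : (c ++ d)[j]? = some (enc (PT.Raw.mk (c ++ d)))[j] := List.getElem?_eq_getElem hj
      rw [h4]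
      rfl

end Pool.Agent.Lib.CxPspace
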